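import Pool.Agent.R645.RegSemi

/-!
# MP_397c7d_co, Q2: no nontrivial lattice identity holds in all `Reg S`, `S` a finite
join-semilattice

If a lattice identity `s = t` holds in the lattice `Reg S` for every finite join-semilattice `S`,
then it holds in every lattice.
-/

namespace Pool.Agent.Results.MP_397c7d_co.NoIdentityRegS

open Pool.Agent.R645.RegTree (LTerm)
open Pool.Agent.R645.RegSemi (Reg Reg.lattice)

universe u

theorem result (s t : LTerm)
    (h : ∀ (S : Type) [SemilatticeSup S] [Finite S] (F : ℕ → Reg S),
      @LTerm.eval (Reg S) (Reg.lattice S) F s = @LTerm.eval (Reg S) (Reg.lattice S) F t) :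
    ∀ (K : Type u) [Lattice K] (v : ℕ → K), s.eval v = t.eval v :=
  fun K _ v => Pool.Agent.R645.RegSemi.main s t h K v

end Pool.Agent.Results.MP_397c7d_co.NoIdentityRegS
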